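import Mathlib

set_option autoImplicit false

namespace Pool.Agent.Results.MP_3eb9f6_co.All

open SimpleGraph Finset

/-- proper, and vertices of the same colour see different colour sets -/
def IsNL {V α : Type} (G : SimpleGraph V) (c : V → α) : Prop :=
  (∀ u v, G.Adj u v → c u ≠ c v) ∧
    ∀ u v, c u = c v → c '' G.neighborSet u = c '' G.neighborSet v → u = v

/-- the neighbor-locating chromatic number -/
noncomputable def chiNL {V : Type} (G : SimpleGraph V) : ℕ := sInf {k | ∃ c : V → Fin k, IsNL G c}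

lemma IsNL.comp {V α β : Type} {G : SimpleGraph V} {c : V → α} (h : IsNL G c) {e : α → β}
    (he : Function.Injective e) : IsNL G (e ∘ c) :=
  ⟨fun u v a h' => h.1 u v a (he h'), fun u v h1 h2 => h.2 u v (he h1) (by
    rw [Set.image_comp, Set.image_comp] at h2
    exact he.image_injective h2)⟩

lemma IsNL.of_comp {V α β : Type} {G : SimpleGraph V} {c : V → α} {e : α → β}
    (h : IsNL G (e ∘ c)) : IsNL G c :=
  ⟨fun u v a h' => h.1 u v a (congrArg e h'), fun u v h1 h2 => h.2 u v (congrArg e h1) (by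
    rw [Set.image_comp, Set.image_comp, h2])⟩

def W (k D : ℕ) : Finset (ℕ × Finset ℕ) :=
  (range k ×ˢ (range k).powerset).filter fun p => p.1 ∈ p.2 ∧ 2 ≤ p.2.card ∧ p.2.card ≤ D + 1

lemma mem_W {k D i : ℕ} {T : Finset ℕ} :
    (i, T) ∈ W k D ↔ i ∈ T ∧ T ⊆ range k ∧ 2 ≤ T.card ∧ T.card ≤ D + 1 := by
  simp only [W, mem_filter, mem_product, mem_powerset]
  exact ⟨fun h => ⟨h.2.1, h.1.2, h.2.2⟩, fun h => ⟨⟨h.2.1 h.1, h.2.1⟩, h.1, h.2.2⟩⟩

lemma card_W (k D : ℕ) : (W k D).card = ∑ j ∈ Icc 1 D, k * (k - 1).choose j := by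
  have : (W k D).card = ((Icc 1 D).sigma fun j => (range k).sigma fun i =>
      powersetCard j ((range k).erase i)).card := by
    symm
    refine card_nbij' (fun x => (x.2.1, insert x.2.1 x.2.2))
      (fun p => ⟨p.2.card - 1, p.1, p.2.erase p.1⟩) ?_ ?_ ?_ ?_
    · rintro ⟨j, i, S⟩ h
      simp only [coe_sigma, Set.mem_sigma_iff, mem_coe, mem_powersetCard, mem_Icc] at h
      obtain ⟨⟨h1, h2⟩, h3, h4, h5⟩ := h
      have h6 : i ∉ S := fun h => by simpa using h4 h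
      simp only [mem_coe, mem_W]
      rw [card_insert_of_notMem h6]
      exact ⟨mem_insert_self _ _, insert_subset h3 (h4.trans (erase_subset _ _)), by omega, by omega⟩
    · rintro ⟨i, T⟩ h
      obtain ⟨h1, h2, h3, h4⟩ := mem_W.1 h
      simp only [coe_sigma, Set.mem_sigma_iff, mem_coe, mem_powersetCard, mem_Icc]
      exact ⟨⟨by omega, by omega⟩, h2 h1, erase_subset_erase _ h2, card_erase_of_mem h1⟩
    · rintro ⟨j, i, S⟩ h
      simp only [coe_sigma, Set.mem_sigma_iff, mem_coe, mem_powersetCard, mem_Icc] at h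
      obtain ⟨⟨h1, h2⟩, h3, h4, rfl⟩ := h
      have h6 : i ∉ S := fun h => by simpa using h4 h
      simp [h6]
    · rintro ⟨i, T⟩ h
      simp [insert_erase (mem_W.1 h).1]
  rw [this, card_sigma]
  refine sum_congr rfl fun j _ => ?_
  rw [card_sigma, sum_congr rfl (g := fun _ => (k - 1).choose j) fun i hi => by
    rw [card_powersetCard, card_erase_of_mem hi, card_range]]
  simp

/-- `i < j` are the two smallest elements of `T` -/
def Key (T : Finset ℕ) (i j : ℕ) : Prop := i < j ∧ i ∈ T ∧ j ∈ T ∧ ∀ x ∈ T, x = i ∨ j ≤ x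

lemma key_ex {T : Finset ℕ} (h : 2 ≤ T.card) : ∃ i j, Key T i j := by
  obtain ⟨i, hi, h1⟩ := exists_min_image T id (card_pos.1 (by omega))
  obtain ⟨j, hj, h2⟩ := exists_min_image (T.erase i) id
    (card_pos.1 (by rw [card_erase_of_mem hi]; omega))
  obtain ⟨h3, h4⟩ := mem_erase.1 hj
  refine ⟨i, j, lt_of_le_of_ne (h1 j h4) h3.symm, hi, h4, fun x hx => ?_⟩
  by_cases e : x = i
  · exact Or.inl e
  · exact Or.inr (h2 x (mem_erase.2 ⟨e, hx⟩))

open Classical in
noncomputable def F (k D i j : ℕ) : Finset (Finset ℕ) :=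
  (range k).powerset.filter fun T => T.card ≤ D + 1 ∧ Key T i j

lemma mem_F {k D i j : ℕ} {T : Finset ℕ} :
    T ∈ F k D i j ↔ T ⊆ range k ∧ T.card ≤ D + 1 ∧ Key T i j := by simp [F]

lemma F_W {k D i j : ℕ} {T : Finset ℕ} (h : T ∈ F k D i j) {x : ℕ} (hx : x ∈ T) : (x, T) ∈ W k D := by
  obtain ⟨h1, h2, h3⟩ := mem_F.1 h
  exact mem_W.2 ⟨hx, h1, one_lt_card.2 ⟨i, h3.2.1, j, h3.2.2.1, h3.1.ne⟩, h2⟩

noncomputable def f (k D i j : ℕ) : Equiv.Perm (Finset ℕ) :=
  (F k D i j).countable_toSet.exists_cycleOn.choose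

lemma f_cyc (k D i j : ℕ) : (f k D i j).IsCycleOn (F k D i j) :=
  (F k D i j).countable_toSet.exists_cycleOn.choose_spec.1

lemma f_mem {k D i j : ℕ} {T : Finset ℕ} : f k D i j T ∈ F k D i j ↔ T ∈ F k D i j :=
  (f_cyc k D i j).apply_mem_iff

def E (k D : ℕ) (p q : ℕ × Finset ℕ) : Prop := p.1 < q.1 ∧
  ((p.2 ∈ F k D p.1 q.1 ∧ q.2 = f k D p.1 q.1 p.2) ∨ (p.2 ∉ F k D p.1 q.1 ∧ q.2 = p.2))

def X (p q : ℕ × Finset ℕ) : Prop := p.2 = {p.1, q.1} ∧
  ((0 < p.1 ∧ p.1 < q.1 ∧ q.2 = {0, p.1, q.1}) ∨ (q.1 = 0 ∧ 1 < p.1 ∧ q.2 = {0, 1, p.1}))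

def G (k D : ℕ) : SimpleGraph (W k D) where
  Adj p q := (E k D p q ∨ E k D q p) ∨ (X p q ∨ X q p)
  symm := ⟨fun _ _ h => h.imp Or.symm Or.symm⟩
  loopless := ⟨fun p h => by simp only [E, X] at h; omega⟩

lemma adj_mem {k D : ℕ} {p q : W k D} (h : (G k D).Adj p q) : q.1.1 ∈ p.1.2.erase p.1.1 := by
  obtain ⟨⟨i, T⟩, hp⟩ := p
  obtain ⟨⟨j, S⟩, hq⟩ := q
  have h1 := (mem_W.1 hp).1
  have h2 := (mem_W.1 hq).1
  rw [mem_erase]
  rcases h with (⟨a, ⟨b, c⟩ | ⟨b, c⟩⟩ | ⟨a, ⟨b, c⟩ | ⟨b, c⟩⟩) | (⟨a, b⟩ | ⟨a, b | b⟩) <;>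
    dsimp only at a b ⊢
  · exact ⟨a.ne', (mem_F.1 b).2.2.2.2.1⟩
  · exact ⟨a.ne', (show S = T from c) ▸ h2⟩
  · exact ⟨a.ne, (show T = f k D j i S from c) ▸ (mem_F.1 (f_mem.2 b)).2.2.2.1⟩
  · exact ⟨a.ne, (show T = S from c) ▸ h2⟩
  · exact ⟨by omega, by simp [a]⟩
  · exact ⟨by omega, by simp [b.2.2]⟩
  · exact ⟨by omega, by simp [b.2.2]⟩

lemma base_ex {k D : ℕ} (p : W k D) {j : ℕ} (hj : j ∈ p.1.2.erase p.1.1) :
    ∃ q : W k D, q.1.1 = j ∧ (G k D).Adj p q := by
  obtain ⟨⟨i, T⟩, hp⟩ := p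
  obtain ⟨h1, h2⟩ := mem_erase.1 hj
  dsimp only at h1 h2
  have hq : (j, T) ∈ W k D := mem_W.2 ⟨h2, (mem_W.1 hp).2⟩
  rcases lt_or_gt_of_ne h1 with h | h
  · by_cases hF : T ∈ F k D j i
    · have h3 : (f k D j i).symm T ∈ F k D j i := f_mem.1 (by simpa using hF)
      exact ⟨⟨_, F_W h3 (mem_F.1 h3).2.2.2.1⟩, rfl, Or.inl (Or.inr ⟨h, Or.inl ⟨h3, by simp⟩⟩)⟩
    · exact ⟨⟨_, hq⟩, rfl, Or.inl (Or.inr ⟨h, Or.inr ⟨hF, rfl⟩⟩)⟩
  · by_cases hF : T ∈ F k D i j
    · have h3 := f_mem.2 hF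
      exact ⟨⟨_, F_W h3 (mem_F.1 h3).2.2.2.2.1⟩, rfl, Or.inl (Or.inl ⟨h, Or.inl ⟨hF, rfl⟩⟩)⟩
    · exact ⟨⟨_, hq⟩, rfl, Or.inl (Or.inl ⟨h, Or.inr ⟨hF, rfl⟩⟩)⟩

lemma base_uniq {k D : ℕ} {p q r : ℕ × Finset ℕ} (h1 : E k D p q ∨ E k D q p)
    (h2 : E k D p r ∨ E k D r p) (e : q.1 = r.1) : q = r := by
  obtain ⟨i, T⟩ := p
  obtain ⟨j, S⟩ := q
  obtain ⟨j', R⟩ := r
  dsimp only at e
  subst e
  simp only [E] at h1 h2
  have inj := (f k D j i).injective.eq_iff (a := S) (b := R)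
  have m1 := f_mem (k := k) (D := D) (i := j) (j := i) (T := S)
  have m2 := f_mem (k := k) (D := D) (i := j) (j := i) (T := R)
  grind

lemma X_card {p q : ℕ × Finset ℕ} (h : X p q) : p.2.card = 2 ∧ q.2.card = 3 := by
  obtain ⟨a, b | b⟩ := h
  · rw [a, b.2.2]
    exact ⟨card_pair (by omega), card_eq_three.2 ⟨_, _, _, by omega, by omega, by omega, rfl⟩⟩
  · rw [a, b.2.2]
    exact ⟨card_pair (by omega), card_eq_three.2 ⟨_, _, _, by omega, by omega, by omega, rfl⟩⟩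

lemma X_uniq {p q r : ℕ × Finset ℕ} (h1 : X p q ∨ X q p) (h2 : X p r ∨ X r p) : q = r := by
  rcases h1 with h1 | h1 <;> rcases h2 with h2 | h2
  · have a := Finset.ext_iff.1 (h1.1.symm.trans h2.1) q.1
    simp only [mem_insert, mem_singleton, or_true, true_iff] at a
    have e : q.1 = r.1 := by have := h1.2; omega
    refine Prod.ext e ?_
    rcases h1.2 with b | b <;> rcases h2.2 with c | c <;> first | omega | rw [b.2.2, c.2.2] <;> rw [e]
  · have := X_card h1; have := X_card h2; omega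
  · have := X_card h1; have := X_card h2; omega
  · have e : q.1 = r.1 := by
      rcases h1.2 with b | b <;> rcases h2.2 with c | c <;> try omega
      all_goals
        have a := Finset.ext_iff.1 (b.2.2.symm.trans c.2.2) q.1
        simp only [mem_insert, mem_singleton, or_true, true_or, true_iff] at a
        omega
    exact Prod.ext e (by rw [h1.1, h2.1, e])

open Classical

lemma img {k D : ℕ} (p : W k D) :
    ((G k D).neighborFinset p).image (fun q => q.1.1) = p.1.2.erase p.1.1 := by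
  ext j
  simp only [mem_image, mem_neighborFinset]
  exact ⟨fun ⟨q, h1, h2⟩ => h2 ▸ adj_mem h1, fun h => (base_ex p h).imp fun _ h => h.symm⟩

lemma deg_le {k D : ℕ} (hD : 3 ≤ D) (p : W k D) : (G k D).degree p ≤ D := by
  have h0 := mem_W.1 (show (p.1.1, p.1.2) ∈ W k D from p.2)
  have h1 : (univ.filter fun q : W k D => E k D p q ∨ E k D q p).card ≤ (p.1.2.erase p.1.1).card :=
    card_le_card_of_injOn (fun q => q.1.1)
      (fun q hq => adj_mem (Or.inl (mem_filter.1 hq).2))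
      fun q hq r hr e => Subtype.ext (base_uniq (mem_filter.1 hq).2 (mem_filter.1 hr).2 e)
  have h2 : (univ.filter fun q : W k D => X p q ∨ X q p).card ≤ 1 :=
    card_le_one.2 fun q hq r hr => Subtype.ext (X_uniq (mem_filter.1 hq).2 (mem_filter.1 hr).2)
  have h3 : (G k D).neighborFinset p = (univ.filter fun q : W k D => E k D p q ∨ E k D q p) ∪
      (univ.filter fun q : W k D => X p q ∨ X q p) := by
    ext q; simp [G]
  rw [card_erase_of_mem h0.1] at h1
  rw [← card_neighborFinset_eq_degree, h3]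
  refine (card_union_le _ _).trans ?_
  rcases (univ.filter fun q : W k D => X p q ∨ X q p).eq_empty_or_nonempty with h | ⟨q, h⟩
  · rw [h, card_empty]; omega
  · rcases (mem_filter.1 h).2 with h | h <;> have := X_card h <;> omega

lemma fam {k D i j : ℕ} (h0 : ({i, j} : Finset ℕ) ∈ F k D i j) (p : W k D) (hp : p.1.2 ∈ F k D i j) :
    (G k D).Reachable ⟨(i, {i, j}), F_W h0 (by simp)⟩ p := by
  have hij := (mem_F.1 h0).2.2.1
  have third : ∀ T (hT : T ∈ F k D i j) x (hx : x ∈ T) y (hy : y ∈ T), y ≠ i → y ≠ j →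
      (G k D).Reachable ⟨(x, T), F_W hT hx⟩ ⟨(y, T), F_W hT hy⟩ := by
    intro T hT x hx y hy y1 y2
    have k1 := (mem_F.1 hT).2.2
    have nk : ∀ a b, T ∈ F k D a b → a = i ∧ b = j := fun a b h => by
      have k2 := (mem_F.1 h).2.2
      have := k1.2.2.2 a k2.2.1
      have := k1.2.2.2 b k2.2.2.1
      have := k2.2.2.2 i k1.2.1
      have := k2.2.2.2 j k1.2.2.1
      have := k2.1
      omega
    rcases lt_trichotomy x y with h | h | h
    · exact Adj.reachable (Or.inl (Or.inl ⟨h, Or.inr ⟨fun h' => y2 (nk _ _ h').2, rfl⟩⟩))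
    · subst h; rfl
    · exact Adj.reachable (Or.inl (Or.inr ⟨h, Or.inr ⟨fun h' => y1 (nk _ _ h').1, rfl⟩⟩))
  have nxt : ∀ T (hT : T ∈ F k D i j) S (hS : S ∈ F k D i j), S = f k D i j T →
      (G k D).Reachable ⟨(i, T), F_W hT (mem_F.1 hT).2.2.2.1⟩
        ⟨(j, S), F_W hS (mem_F.1 hS).2.2.2.2.1⟩ :=
    fun T hT S hS e => Adj.reachable (Or.inl (Or.inl ⟨hij, Or.inl ⟨hT, e⟩⟩))
  have it : ∀ (n : ℕ) T (hT : T ∈ F k D i j), ((f k D i j) ^ n) {i, j} = T →
      (G k D).Reachable ⟨(i, {i, j}), F_W h0 (by simp)⟩ ⟨(i, T), F_W hT (mem_F.1 hT).2.2.2.1⟩ := by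
    intro n
    induction n with
    | zero => intro T hT e; simp at e; subst e; rfl
    | succ n ih =>
      intro T hT e
      rw [pow_succ', Equiv.Perm.mul_apply] at e
      have hS := f_mem.1 (e ▸ hT)
      have k1 := (mem_F.1 hT).2.2
      by_cases h : T ⊆ {i, j}
      · have : T = {i, j} := h.antisymm (insert_subset k1.2.1 (singleton_subset_iff.2 k1.2.2.1))
        subst this; rfl
      · obtain ⟨y, y0, y1⟩ := not_subset.1 h
        simp only [mem_insert, mem_singleton, not_or] at y1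
        exact ((ih _ hS rfl).trans (nxt _ hS T hT e.symm)).trans
          ((third T hT j k1.2.2.1 y y0 y1.1 y1.2).trans (third T hT i k1.2.1 y y0 y1.1 y1.2).symm)
  have all : ∀ T (hT : T ∈ F k D i j),
      (G k D).Reachable ⟨(i, {i, j}), F_W h0 (by simp)⟩ ⟨(i, T), F_W hT (mem_F.1 hT).2.2.2.1⟩ :=
    fun T hT => by
      obtain ⟨n, -, hn⟩ := (f_cyc k D i j).exists_pow_eq h0 hT
      exact it n T hT hn
  obtain ⟨⟨x, T⟩, hx⟩ := p
  by_cases e1 : x = i
  · subst e1; exact all T hp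
  by_cases e2 : x = j
  · subst e2
    have hS : (f k D i x).symm T ∈ F k D i x := f_mem.1 (by simpa using hp)
    exact (all _ hS).trans (nxt _ hS T hp (by simp))
  · exact (all T hp).trans (third T hp i (mem_F.1 hp).2.2.2.1 x (mem_W.1 hx).1 e1 e2)

lemma pair_F {k D i j : ℕ} (hD : 3 ≤ D) (h : i < j) (hj : j < k) : ({i, j} : Finset ℕ) ∈ F k D i j :=
  mem_F.2 ⟨by intro x; simp; omega, card_le_two.trans (by omega), h, by simp, by simp,
    by intro x; simp; omega⟩

lemma tri_F {k D i j l : ℕ} (hD : 3 ≤ D) (h : i < j) (hj : j < l) (hl : l < k) :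
    ({i, j, l} : Finset ℕ) ∈ F k D i j :=
  mem_F.2 ⟨by intro x; simp; omega, card_le_three.trans (by omega), h, by simp, by simp,
    by intro x; simp; omega⟩

lemma conn {k D : ℕ} (hD : 3 ≤ D) (hk : 2 ≤ k) : (G k D).Connected := by
  have h01 := pair_F (k := k) hD Nat.zero_lt_one hk
  have z : ∀ j, ∀ p : W k D, p.1.2 ∈ F k D 0 j →
      (G k D).Reachable ⟨(0, {0, 1}), F_W h01 (by simp)⟩ p := by
    intro j p hp
    obtain ⟨a, -, b, -, c, -⟩ := mem_F.1 hp
    have hj := mem_range.1 (a c)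
    by_cases e : j = 1
    · subst e; exact fam h01 p hp
    have h1 := pair_F hD b hj
    have h2 := tri_F hD Nat.zero_lt_one (by omega : 1 < j) hj
    have h3 : (G k D).Adj ⟨(j, {0, j}), F_W h1 (by simp)⟩ ⟨(0, {0, 1, j}), F_W h2 (by simp)⟩ :=
      Or.inr (Or.inl ⟨pair_comm _ _, Or.inr ⟨rfl, by show 1 < j; omega, rfl⟩⟩)
    exact ((fam h01 _ h2).trans h3.symm.reachable).trans ((fam h1 _ h1).symm.trans (fam h1 p hp))
  refine (connected_iff_exists_forall_reachable _).2 ⟨⟨(0, {0, 1}), F_W h01 (by simp)⟩, fun p => ?_⟩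
  have h0 := mem_W.1 (show (p.1.1, p.1.2) ∈ W k D from p.2)
  obtain ⟨i, j, hk⟩ := key_ex h0.2.2.1
  have hp : p.1.2 ∈ F k D i j := mem_F.2 ⟨h0.2.1, h0.2.2.2, hk⟩
  rcases Nat.eq_zero_or_pos i with rfl | hi
  · exact z j p hp
  have hj := mem_range.1 (h0.2.1 hk.2.2.1)
  have h1 := pair_F hD hk.1 hj
  have h2 := tri_F hD hi hk.1 hj
  have h3 : (G k D).Adj ⟨(i, {i, j}), F_W h1 (by simp)⟩ ⟨(j, {0, i, j}), F_W h2 (by simp)⟩ :=
    Or.inr (Or.inl ⟨rfl, Or.inl ⟨hi, hk.1, rfl⟩⟩)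
  exact ((z i _ h2).trans h3.symm.reachable).trans (fam h1 p hp)

lemma nl {k D : ℕ} : IsNL (G k D) (fun p => p.1.1) := by
  refine ⟨fun p q h => (mem_erase.1 (adj_mem h)).1.symm, fun p q h1 h2 => ?_⟩
  have h3 : p.1.2.erase p.1.1 = q.1.2.erase q.1.1 := by
    rw [← img, ← img]
    exact coe_injective (by simpa using h2)
  have a := (mem_W.1 (show (p.1.1, p.1.2) ∈ W k D from p.2)).1
  have b := (mem_W.1 (show (q.1.1, q.1.2) ∈ W k D from q.2)).1
  exact Subtype.ext (Prod.ext h1 (by rw [← insert_erase a, ← insert_erase b, h3, show p.1.1 = q.1.1 from h1]))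

lemma chi {k D : ℕ} (hD : 3 ≤ D) (hk : 2 ≤ k) : chiNL (G k D) = k := by
  have h1 : k ∈ {m | ∃ c : W k D → Fin m, IsNL (G k D) c} :=
    ⟨fun p => ⟨p.1.1, by
      have a := mem_W.1 (show (p.1.1, p.1.2) ∈ W k D from p.2)
      exact mem_range.1 (a.2.1 a.1)⟩, IsNL.of_comp (e := Fin.val) nl⟩
  refine le_antisymm (Nat.sInf_le h1) (le_csInf ⟨k, h1⟩ ?_)
  rintro m ⟨c, hc⟩
  by_contra hm
  have hc' := hc.comp Fin.val_injective
  have h2 : (univ : Finset (W k D)).card ≤ (W m D).card := card_le_card_of_injOn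
    (fun p => ((c p).val, insert (c p).val (((G k D).neighborFinset p).image fun q => (c q).val)))
    (fun p _ => by
      have n1 : (c p).val ∉ ((G k D).neighborFinset p).image fun q => (c q).val := fun h => by
        obtain ⟨q, q1, q2⟩ := mem_image.1 h
        exact hc'.1 p q (by simpa using q1) q2.symm
      have a := mem_W.1 (show (p.1.1, p.1.2) ∈ W k D from p.2)
      have n2 : ((G k D).neighborFinset p).Nonempty := by
        apply Nonempty.of_image (f := fun q : W k D => q.1.1)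
        rw [img, ← card_pos, card_erase_of_mem a.1]
        omega
      have n3 := card_pos.2 (n2.image fun q => (c q).val)
      have n4 := (card_image_le (s := (G k D).neighborFinset p) (f := fun q => (c q).val)).trans
        (deg_le hD p)
      simp only [mem_coe, mem_W]
      rw [card_insert_of_notMem n1]
      refine ⟨mem_insert_self _ _, fun x hx => ?_, by omega, by omega⟩
      rcases mem_insert.1 hx with rfl | hx
      · simp
      · obtain ⟨q, -, rfl⟩ := mem_image.1 hx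
        simp)
    (fun p _ q _ e => by
      have e1 : (c p).val = (c q).val := congrArg Prod.fst e
      have e2 := congrArg Prod.snd e
      refine hc'.2 p q e1 ?_
      ext x
      have e3 := Finset.ext_iff.1 e2 x
      simp only [mem_insert, mem_image, mem_neighborFinset] at e3
      simp only [Set.mem_image, mem_neighborSet, Function.comp]
      constructor
      · rintro ⟨r, r1, rfl⟩
        exact (e3.1 (Or.inr ⟨r, r1, rfl⟩)).resolve_left fun h => hc'.1 p r r1 (e1.trans h.symm)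
      · rintro ⟨r, r1, rfl⟩
        exact (e3.2 (Or.inr ⟨r, r1, rfl⟩)).resolve_left fun h => hc'.1 q r r1 (e1.symm.trans h.symm))
  have h3 : W m D ⊂ W k D := by
    refine ⟨fun p hp => ?_, fun h => ?_⟩
    · have a := mem_W.1 (show (p.1, p.2) ∈ W m D from hp)
      exact mem_W.2 ⟨a.1, a.2.1.trans (range_mono (by omega)), a.2.2⟩
    · have a := F_W (pair_F hD (by omega : 0 < k - 1) (by omega : k - 1 < k)) (x := k - 1) (by simp)
      have b := mem_W.1 (h a)
      have := mem_range.1 (b.2.1 b.1)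
      omega
  have := card_lt_card h3
  simp at h2
  omega

/-- The bound `B(k, D)` is attained for all `k ≥ 5`, `3 ≤ D ≤ k - 2`. -/
theorem result : ∀ k D : ℕ, 5 ≤ k → 3 ≤ D → D ≤ k - 2 →
    ∃ (V : Type) (_ : Fintype V) (G : SimpleGraph V) (_ : DecidableRel G.Adj), G.Connected ∧
      chiNL G = k ∧ G.maxDegree = D ∧ Fintype.card V = ∑ j ∈ Icc 1 D, k * (k - 1).choose j := by
  intro k D hk hD hDk
  refine ⟨W k D, inferInstance, G k D, inferInstance, conn hD (by omega), chi hD (by omega),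
    le_antisymm (maxDegree_le_of_forall_degree_le _ _ (deg_le hD)) ?_, by simp [card_W]⟩
  have hp : (0, range (D + 1)) ∈ W k D :=
    mem_W.2 ⟨by simp, range_mono (by omega), by simp; omega, by simp⟩
  refine le_trans ?_ (degree_le_maxDegree _ ⟨_, hp⟩)
  have := card_image_le (s := (G k D).neighborFinset ⟨_, hp⟩) (f := fun q => q.1.1)
  rw [img] at this
  simpa using this

end Pool.Agent.Results.MP_3eb9f6_co.All
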